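import Pool.Agent.Work.KTT.Exact

/-!
MP_63048f_co: a lower bound of the right order `n ^ 2 / t ^ 2` for the maximum number of copies of
`K_{t,t}` in a `K_{2,t+1}`-free graph on `n` vertices, for every `t`.
-/

set_option autoImplicit false

open SimpleGraph Filter Topology

namespace Pool.Agent.Results.MP_63048f_co.InverseSquareLowerBound

/-- The generalized Turan number `ex(n, H, F)`: the largest number of (not necessarily induced,
unlabelled) subgraphs isomorphic to `H` in a graph on `n` vertices without a subgraph isomorphic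
to `F`. -/
noncomputable def ex {α β : Type} (n : ℕ) (H : SimpleGraph α) (F : SimpleGraph β) : ℕ :=
  sSup {c | ∃ G : SimpleGraph (Fin n), F.Free G ∧ c = G.copyCount H}

/-- `N_t(n) = ex(n, K_{t,t}, K_{2,t+1})`. -/
noncomputable def N (t n : ℕ) : ℕ :=
  ex n (completeBipartiteGraph (Fin t) (Fin t)) (completeBipartiteGraph (Fin 2) (Fin (t + 1)))

/-- The number with binary digits `1` exactly at the places in `S`. -/
def bin (S : Finset ℕ) : ℕ := ∑ i ∈ S, 2 ^ i

/-- The product of `1 - 2 ^ (-(i + 1))` over `i ∈ S`; it is larger than `1 / 4`. -/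
noncomputable def theta (S : Finset ℕ) : ℝ := ∏ i ∈ S, (1 - 1 / 2 ^ (i + 1))

/-- `liminf N_t(n) / n ^ 2 ≥ 3 r ^ 2 / 32` and `limsup N_t(n) / n ^ 2 ≥ r ^ 2 / 2`. -/
def Bounds (t : ℕ) (r : ℝ) : Prop :=
  (∀ c < 3 / 32 * r ^ 2, ∀ᶠ n : ℕ in atTop, c * (n : ℝ) ^ 2 ≤ N t n) ∧
  (∀ c < 1 / 2 * r ^ 2, ∃ᶠ n : ℕ in atTop, c * (n : ℝ) ^ 2 ≤ N t n)

theorem n_eq (t n : ℕ) : N t n = KTT.N t n := by
  unfold N ex KTT.N KTT.KFree
  congr 1
  ext c
  constructor
  · rintro ⟨G, h1, h2⟩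
    exact ⟨G, h1, h2.symm⟩
  · rintro ⟨G, h1, h2⟩
    exact ⟨G, h1, h2.symm⟩

/-- For every `t ≥ 2`, `N_t(n) ≥ n ^ 2 / (6144 t ^ 2)` for all large `n`. More precisely, if
`t = 2 w` where `w` has `k ≥ 1` binary digits `1`, at the places `S`, then the bounds hold with
`r = theta S / (t - k)`; for odd `t = 2 w + 3` they hold with `r = theta S / (6 (t - k - 2))`. -/
theorem result :
    (∀ t : ℕ, 2 ≤ t → ∀ᶠ n : ℕ in atTop, (n : ℝ) ^ 2 / (6144 * (t : ℝ) ^ 2) ≤ N t n) ∧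
    (∀ S : Finset ℕ, S.Nonempty →
      Bounds (2 * bin S) (theta S / (2 * bin S - S.card))) ∧
    (∀ S : Finset ℕ,
      Bounds (2 * bin S + 3) (theta S / (6 * (2 * bin S - S.card + 1)))) := by
  refine ⟨fun t ht => ?_, fun S hS => ⟨fun c hc => ?_, fun c hc => ?_⟩,
    fun S => ⟨fun c hc => ?_, fun c hc => ?_⟩⟩
  · simp only [n_eq]
    exact KTT.all_bound ht
  · simp only [n_eq]
    have h1 : 1 ≤ ∑ i ∈ S, 2 ^ i := by
      obtain ⟨i, hi⟩ := hS
      exact Nat.one_le_two_pow.trans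
        (Finset.single_le_sum (f := fun i => 2 ^ i) (fun _ _ => Nat.zero_le _) hi)
    refine KTT.even_exact h1 ?_
    rw [KTT.kappa_eq]
    exact hc
  · simp only [n_eq]
    have h1 : 1 ≤ ∑ i ∈ S, 2 ^ i := by
      obtain ⟨i, hi⟩ := hS
      exact Nat.one_le_two_pow.trans
        (Finset.single_le_sum (f := fun i => 2 ^ i) (fun _ _ => Nat.zero_le _) hi)
    refine KTT.even_exact_seq h1 ?_
    rw [KTT.kappa_eq]
    exact hc
  · simp only [n_eq]
    refine KTT.odd_exact S (lt_of_lt_of_eq hc ?_)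
    rw [KTT.kappa_eq]
    unfold theta bin
    generalize (∏ i ∈ S, (1 - 1 / 2 ^ (i + 1) : ℝ)) = x
    generalize (2 * ((∑ i ∈ S, 2 ^ i : ℕ) : ℝ) - (S.card : ℝ) + 1) = y
    rw [mul_comm (6 : ℝ) y, ← div_div, div_pow (x / y)]
    ring
  · simp only [n_eq]
    refine KTT.odd_exact_seq S ?_
    rw [KTT.kappa_eq]
    exact hc

end Pool.Agent.Results.MP_63048f_co.InverseSquareLowerBound
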