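import Pool.Agent.Work.MP_63048f_co.K6

/-!
MP_63048f_co, Q1 for `t = 3`: the maximum number of copies of `K_{3,3}` in a `K_{2,4}`-free graph
on `n` vertices is `(1 + o(1)) n ^ 2 / 12`, for all `n`.
-/

open SimpleGraph Filter Topology

namespace Pool.Agent.Results.MP_63048f_co.TEqualsThree

/-- The generalized Turan number `ex(n, H, F)`: the largest number of (not necessarily induced,
unlabelled) subgraphs isomorphic to `H` in a graph on `n` vertices without a subgraph isomorphic
to `F`. -/
noncomputable def ex {α β : Type} (n : ℕ) (H : SimpleGraph α) (F : SimpleGraph β) : ℕ :=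
  sSup {c | ∃ G : SimpleGraph (Fin n), F.Free G ∧ c = G.copyCount H}

/-- `N_t(n) = ex(n, K_{t,t}, K_{2,t+1})`. -/
noncomputable def N (t n : ℕ) : ℕ :=
  ex n (completeBipartiteGraph (Fin t) (Fin t)) (completeBipartiteGraph (Fin 2) (Fin (t + 1)))

/-- `N_3(n) / n ^ 2` tends to `1 / (2 t (t - 1))`, `t = 3`, as `n` tends to infinity through all
positive integers. -/
theorem result : Tendsto (fun n : ℕ => (N 3 n : ℝ) / (n : ℝ) ^ 2) atTop
    (𝓝 (1 / (2 * 3 * (3 - 1)))) := by
  have h := K33.result_aux
  have h2 : (1 / (2 * 3 * (3 - 1)) : ℝ) = 1 / 12 := by norm_num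
  rw [h2]
  exact h

end Pool.Agent.Results.MP_63048f_co.TEqualsThree
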